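import Mathlib
import Pool.Agent.R582.Rand.Prod
import Pool.Agent.Helper669.Forcing2
import Pool.Agent.Helper669.Dom

set_option autoImplicit false

/-!
# Random forcing: functions are bounded, the dominating number does not change
-/

namespace Pool.Agent.U69.RR

open Cardinal Set MeasureTheory Filter
open scoped ENNReal
open Pool.Agent.Helper669.Forcing Pool.Agent.Helper669.Forcing2
open Pool.Agent.R582.Rand (MAlg coins val val_meas mem_meets cst mem_cst mem_meets_cst null_diff_trans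
  null_diff_of_subset exists_diff null_of_dense coins_cyl)
open Pool.Agent.H631R2 (CCC)

section

variable {Ω : Type} [MeasurableSpace Ω] {μ : Measure Ω}

/-- `p` forces that the generic filter meets `N` iff `p` is almost contained in the value. -/
theorem mem_meets' [IsFiniteMeasure μ] {N : Set (MAlg μ)} {p : MAlg μ} :
    p ∈ meets N ↔ μ (p.s \ val N) = 0 := mem_meets

theorem mem_meets_cst' {E : Set Ω} (hE : MeasurableSet E) {p : MAlg μ} :
    p ∈ meets (cst E : Set (MAlg μ)) ↔ μ (p.s \ E) = 0 := mem_meets_cst hE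

/-- sequences of countable partitions are bounded on a set of large measure -/
theorem exists_bound [IsFiniteMeasure μ] {q : Set Ω} (hq : MeasurableSet q) (A : ℕ → ℕ → Set Ω)
    (hA : ∀ m k, MeasurableSet (A m k)) (h : ∀ m, μ (q \ ⋃ k, A m k) = 0) {ε : ℝ≥0∞}
    (hε : ε ≠ 0) : ∃ g : ℕ → ℕ, μ (q \ ⋂ m, ⋃ k ∈ Finset.range (g m), A m k) < ε := by
  obtain ⟨δ, hδ, hsum⟩ := ENNReal.exists_pos_sum_of_countable hε ℕ
  have h1 : ∀ m, ∃ g, μ (q \ ⋃ k ∈ Finset.range g, A m k) < δ m := by
    intro m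
    have hanti : Antitone fun g : ℕ => q \ ⋃ k ∈ Finset.range g, A m k := by
      intro g g' hg x hx
      refine ⟨hx.1, fun hx' => hx.2 ?_⟩
      simp only [mem_iUnion, Finset.mem_range] at hx' ⊢
      obtain ⟨k, hk, hk'⟩ := hx'
      exact ⟨k, hk.trans_le hg, hk'⟩
    have hmeas : ∀ g : ℕ, NullMeasurableSet (q \ ⋃ k ∈ Finset.range g, A m k) μ := fun g =>
      (hq.diff (Finset.measurableSet_biUnion _ fun k _ => hA m k)).nullMeasurableSet
    have h2 := tendsto_measure_iInter_atTop (μ := μ) hmeas hanti ⟨0, measure_ne_top _ _⟩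
    have h3 : (⋂ g : ℕ, q \ ⋃ k ∈ Finset.range g, A m k) = q \ ⋃ k, A m k := by
      ext x
      simp only [mem_iInter, Set.mem_sdiff, mem_iUnion, Finset.mem_range, not_exists]
      constructor
      · intro hx
        exact ⟨(hx 0).1, fun k hk => (hx (k + 1)).2 k (Nat.lt_succ_self k) hk⟩
      · intro hx g
        exact ⟨hx.1, fun k _ => hx.2 k⟩
    rw [h3, h m] at h2
    obtain ⟨g, hg⟩ := (h2.eventually_lt_const
      (show (0 : ℝ≥0∞) < δ m from by exact_mod_cast hδ m)).exists
    exact ⟨g, hg⟩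
  choose g hg using h1
  refine ⟨g, lt_of_le_of_lt ?_ hsum⟩
  have h4 : q \ ⋂ m, ⋃ k ∈ Finset.range (g m), A m k ⊆
      ⋃ m, q \ ⋃ k ∈ Finset.range (g m), A m k := by
    rintro x ⟨hx, hx'⟩
    rw [mem_iInter, not_forall] at hx'
    obtain ⟨m, hm⟩ := hx'
    exact mem_iUnion.2 ⟨m, hx, hm⟩
  refine (measure_mono h4).trans ((measure_iUnion_le _).trans ?_)
  exact ENNReal.tsum_le_tsum fun m => (hg m).le

/-- a condition meets one of the sets which cover it -/
theorem exists_cond_of_cover {ι : Type} {q : MAlg μ} {T : Finset ι} {A : ι → Set Ω}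
    (hA : ∀ i, MeasurableSet (A i)) (h : μ (q.s \ ⋃ i ∈ T, A i) = 0) :
    ∃ i ∈ T, ∃ r ≤ q, μ (r.s \ A i) = 0 := by
  have h2 : ∃ i ∈ T, μ (q.s ∩ A i) ≠ 0 := by
    by_contra hcon
    push Not at hcon
    apply q.pos
    have h3 : q.s ⊆ (q.s \ ⋃ i ∈ T, A i) ∪ ⋃ i ∈ T, q.s ∩ A i := by
      intro x hx
      by_cases hx' : x ∈ ⋃ i ∈ T, A i
      · right
        simp only [mem_iUnion] at hx' ⊢
        obtain ⟨i, hi, hi'⟩ := hx'
        exact ⟨i, hi, hx, hi'⟩
      · exact Or.inl ⟨hx, hx'⟩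
    refine measure_mono_null h3 (measure_union_null h ?_)
    exact le_antisymm ((measure_biUnion_finset_le T _).trans_eq (Finset.sum_eq_zero hcon)) zero_le
  obtain ⟨i, hi, hi'⟩ := h2
  exact ⟨i, hi, q.inter (A i) (hA i) hi', q.inter_le _ _ _,
    null_diff_of_subset inter_subset_right⟩

/-- The values of a function name cover. -/
theorem cover_of_isFun [IsFiniteMeasure μ] {Y : Type} [Countable Y] {X : Type}
    {f : X → Y → Set (MAlg μ)} {q : MAlg μ} (hf : q ∈ IsFun f) (x : X) :
    μ (q.s \ ⋃ y, val (f x y)) = 0 := by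
  refine null_of_dense (MeasurableSet.iUnion fun y => val_meas _) fun q' hq' => ?_
  obtain ⟨r, hr, y, hy⟩ := mem_fex.1 (hf.1 x) q' hq'
  exact ⟨r, hr, null_diff_trans (mem_meets'.1 hy)
    (null_diff_of_subset (subset_iUnion (fun y => val (f x y)) y))⟩

/-- the set where `f` is bounded by `g` -/
noncomputable def bset [IsFiniteMeasure μ] (f : ℕ → ℕ → Set (MAlg μ)) (g : ℕ → ℕ) : Set Ω :=
  ⋂ m, ⋃ k ∈ Finset.range (g m), val (f m k)

theorem bset_meas [IsFiniteMeasure μ] (f : ℕ → ℕ → Set (MAlg μ)) (g : ℕ → ℕ) :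
    MeasurableSet (bset f g) :=
  MeasurableSet.iInter fun _ => Finset.measurableSet_biUnion _ fun _ _ => val_meas _

theorem val_lt_of_bset [IsFiniteMeasure μ] {f : ℕ → ℕ → Set (MAlg μ)} {g : ℕ → ℕ} {q : MAlg μ}
    (hf : q ∈ IsFun f) (hg : μ (q.s \ bset f g) = 0) {n a : ℕ} (ha : q ∈ meets (f n a)) :
    a < g n := by
  have h1 : μ (q.s \ ⋃ k ∈ Finset.range (g n), val (f n k)) = 0 :=
    null_diff_trans hg (null_diff_of_subset (iInter_subset _ n))
  obtain ⟨k, hk, r, hr, hrk⟩ := exists_cond_of_cover (fun k => val_meas _) h1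
  have h2 : r ∈ meets (f n k) := mem_meets'.2 hrk
  have h3 : k = a := IsFun.unique (down_IsFun f _ hf _ hr) h2 (down_meets _ _ ha _ hr)
  rw [← h3]
  exact Finset.mem_range.1 hk

/-- countably many ground model functions are enough to bound a function of the extension -/
theorem exists_bounds [IsFiniteMeasure μ] {f : ℕ → ℕ → Set (MAlg μ)} {q : MAlg μ}
    (hf : q ∈ IsFun f) : ∃ g : ℕ → ℕ → ℕ, ∀ r ≤ q, ∃ j, ∃ r' ≤ r, μ (r'.s \ bset f (g j)) = 0 := by
  have h1 : ∀ j : ℕ, ∃ g : ℕ → ℕ, μ (q.s \ bset f g) < ((j : ℝ≥0∞) + 1)⁻¹ := fun j =>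
    exists_bound q.meas _ (fun m k => val_meas _) (fun m => cover_of_isFun hf m)
      (ENNReal.inv_ne_zero.2 (by finiteness))
  choose g hg using h1
  refine ⟨g, fun r hr => ?_⟩
  have h2 : ∃ j, μ (r.s ∩ bset f (g j)) ≠ 0 := by
    by_contra hcon
    push Not at hcon
    have h3 : ∀ j : ℕ, μ r.s ≤ ((j : ℝ≥0∞) + 1)⁻¹ := by
      intro j
      have h4 : r.s ⊆ (r.s \ q.s) ∪ ((r.s ∩ bset f (g j)) ∪ (q.s \ bset f (g j))) := by
        intro x hx
        by_cases hxq : x ∈ q.s
        · right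
          by_cases hxb : x ∈ bset f (g j)
          · exact Or.inl ⟨hx, hxb⟩
          · exact Or.inr ⟨hxq, hxb⟩
        · exact Or.inl ⟨hx, hxq⟩
      refine (measure_mono h4).trans ((measure_union_le _ _).trans ?_)
      rw [show μ (r.s \ q.s) = 0 from hr, zero_add]
      refine (measure_union_le _ _).trans ?_
      rw [hcon j, zero_add]
      exact (hg j).le
    apply r.pos
    by_contra hne
    obtain ⟨n, hn⟩ := ENNReal.exists_inv_nat_lt hne
    have h5 := h3 n
    have h6 : ((n : ℝ≥0∞) + 1)⁻¹ ≤ (n : ℝ≥0∞)⁻¹ := ENNReal.inv_le_inv.2 (by simp)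
    exact absurd (h5.trans h6) (not_le.2 hn)
  obtain ⟨j, hj⟩ := h2
  exact ⟨j, r.inter _ (bset_meas f (g j)) hj, r.inter_le _ _ _,
    null_diff_of_subset inter_subset_right⟩

end

/-! ### The dominating number of the extension -/

section

variable {P : Type} [Preorder P]

/-- In the extension there is a dominating family of functions from `ℕ` to `ℕ` indexed by `Y`. -/
def DomLe (P : Type) [Preorder P] (Y : Type) : Set P :=
  fex fun E : Y → ℕ → ℕ → Set P =>
    fand (fall fun y => IsFun (E y))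
      (fall fun x : ℕ → ℕ → Set P => fimp (IsFun x)
        (fex fun y : Y => fex fun m : ℕ => fall fun n : ℕ => fall fun _ : m ≤ n =>
          fall fun a : ℕ => fall fun b : ℕ =>
            fimp (fand (meets (x n a)) (meets (E y n b))) (fground (a ≤ b))))

/-- In the extension `𝔡 = κ`: there is a dominating family of size `κ` and there is none of
smaller size. -/
def DomIs (P : Type) [Preorder P] (κ : Cardinal.{0}) : Set P :=
  fand (DomLe P κ.out)
    (fall fun ν : Cardinal.{0} => fall fun _ : ν < κ => fnot (DomLe P ν.out))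

/-- the name of a function of the ground model -/
def chk {X Y : Type} (f : X → Y) : X → Y → Set P := fun x y => {_p | f x = y}

theorem mem_meets_chk {X Y : Type} {f : X → Y} {x : X} {y : Y} {p : P} :
    p ∈ meets (chk (P := P) f x y) ↔ f x = y := by
  constructor
  · intro h
    obtain ⟨_, _, s, hs, _⟩ := h p le_rfl
    exact hs
  · intro h q _
    exact ⟨q, le_rfl, q, h, le_rfl⟩

theorem isFun_chk {X Y : Type} (f : X → Y) (p : P) : p ∈ IsFun (chk (P := P) f) := by
  refine ⟨fun x => mem_fex.2 fun q _ => ⟨q, le_rfl, f x, mem_meets_chk.2 rfl⟩, fun x y y' =>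
    mem_fimp.2 fun q _ hq => ⟨q, le_rfl, ?_⟩⟩
  have h1 := mem_meets_chk.1 hq.1
  have h2 := mem_meets_chk.1 hq.2
  exact h1.symm.trans h2

end

end Pool.Agent.U69.RR
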