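import Mathlib
import Pool.Agent.U69.RR.Bound

set_option autoImplicit false

/-!
# Random reals force the negative polarized relation at the dominating number
-/

namespace Pool.Agent.U69.RR

open Cardinal Set MeasureTheory Filter
open scoped ENNReal
open Pool.Agent.Helper669.Forcing Pool.Agent.Helper669.Forcing2 Pool.Agent.Helper669.Dom
open Pool.Agent.R582.Rand (MAlg coins val val_meas mem_meets cst mem_cst mem_meets_cst null_diff_trans
  null_diff_of_subset exists_diff null_of_dense coins_cyl)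
open Pool.Agent.H631R2 (CCC)

/-! ### Cardinals -/

section

variable {P : Type} [Preorder P]

theorem cardinalsPreserved (hP : CCC P) (p : P) : p ∈ CardinalsPreserved.{0, 0} P := by
  intro μ ν hμν hν q _ hq
  obtain ⟨q1, _, R, hR1, hR2⟩ := mem_fex.1 hq q le_rfl
  have h1 : ∀ y : ν.out, ∃ r ≤ q1, ∃ x, r ∈ meets (R x y) := fun y => mem_fex.1 (hR2 y) q1 le_rfl
  choose r hr x hx using h1
  have h2 := hP.mk_le x r (by
    rintro y y' hne hxx ⟨s, hs, hs'⟩
    apply hne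
    refine IsFun.unique (down_IsFun R _ hR1 s (hs.trans (hr y))) (down_meets _ _ (hx y) _ hs) ?_
    rw [hxx]
    exact down_meets _ _ (hx y') _ hs')
  rw [mk_out, mk_out] at h2
  exact absurd h2 (not_le.2 (mul_lt_of_lt hν.le hμν hν))

/-- a subset of full size is not contained in a small ground model set -/
theorem exists_mem_notMem (hP : CCC P) {K : Type} (hK : ℵ₀ < #K) {S : Set K} (hS : #S < #K)
    {A : K → Set P} {p : P} (hp : p ∈ HasFullSize A) : ∃ r ≤ p, ∃ a, a ∉ S ∧ r ∈ meets (A a) := by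
  by_contra hcon
  push Not at hcon
  obtain ⟨q, hq, R, hR1, hR2, hR3⟩ := mem_fex.1 hp p le_rfl
  have h1 : ∀ x : K, ∃ r ≤ q, ∃ y : S, r ∈ meets (R x y) := by
    intro x
    obtain ⟨r, hr, y, hy⟩ := mem_fex.1 (hR1.1 x) q le_rfl
    obtain ⟨r', hr', h⟩ := mem_fimp.1 (hR3 x y) r hr hy
    by_cases hyS : y ∈ S
    · exact ⟨r', hr'.trans hr, ⟨y, hyS⟩, down_meets _ _ hy _ hr'⟩
    · exact absurd h (hcon r' (hr'.trans (hr.trans hq)) y hyS)
  choose r hr y hy using h1
  have h2 := hP.mk_le y r (by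
    rintro x x' hne hxx ⟨s, hs, hs'⟩
    apply hne
    refine IsInj.eq (down_IsInj R _ hR2 s (hs.trans (hr x))) (down_meets _ _ (hy x) _ hs) ?_
    rw [hxx]
    exact down_meets _ _ (hy x') _ hs')
  exact absurd h2 (not_le.2 (mul_lt_of_lt hK.le hS hK))

end

/-! ### The dominating number -/

section

variable {Ω : Type} [MeasurableSpace Ω] {μ : Measure Ω} [IsFiniteMeasure μ]

theorem domLe (Y : Type) (D : Y → ℕ → ℕ) (hD : ∀ g : ℕ → ℕ, ∃ y, ∀ᶠ n in atTop, g n ≤ D y n)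
    (p : MAlg μ) : p ∈ DomLe (MAlg μ) Y := by
  refine mem_fex.2 fun q _ => ⟨q, le_rfl, fun y => chk (D y), fun y => isFun_chk _ _, fun x =>
    mem_fimp.2 fun q' _ hx => ⟨q', le_rfl, mem_fex.2 fun r hr => ?_⟩⟩
  obtain ⟨g, hg⟩ := exists_bounds hx
  obtain ⟨j, r', hr', hb⟩ := hg r hr
  obtain ⟨y, hy⟩ := hD (g j)
  obtain ⟨m, hm⟩ := eventually_atTop.1 hy
  refine ⟨r', hr', y, mem_fex.2 fun s hs => ⟨s, le_rfl, m, fun n hn a b =>
    mem_fimp.2 fun t ht hab => ⟨t, le_rfl, ?_⟩⟩⟩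
  have h1 : D y n = b := mem_meets_chk.1 hab.2
  have htr : t ≤ r' := ht.trans hs
  have h2 : a < g j n := val_lt_of_bset (down_IsFun x _ hx _ (htr.trans (hr'.trans hr)))
    (null_diff_trans htr hb) hab.1
  have h3 := hm n hn
  show a ≤ b
  omega

theorem not_domLe (Y : Type) (hY : #Y < dNum) (p : MAlg μ) : p ∈ fnot (DomLe (MAlg μ) Y) := by
  intro q _ hq
  obtain ⟨q1, _, E, hE1, hE2⟩ := mem_fex.1 hq q le_rfl
  have h1 : ∀ y, ∃ g : ℕ → ℕ → ℕ, ∀ r ≤ q1, ∃ j, ∃ r' ≤ r, μ (r'.s \ bset (E y) (g j)) = 0 :=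
    fun y => exists_bounds (hE1 y)
  choose g hg using h1
  have hcard : #(Y × ℕ) < dNum := by
    rw [mk_prod, lift_id, lift_id]
    exact mul_lt_of_lt aleph0_lt_dNum.le hY (by rw [mk_nat]; exact aleph0_lt_dNum)
  obtain ⟨h, hh⟩ := not_dominating hcard fun i => g i.1 i.2
  obtain ⟨q2, hq2, h2⟩ := mem_fimp.1 (hE2 (chk h)) q1 le_rfl (isFun_chk h q1)
  obtain ⟨q3, hq3, y, h3⟩ := mem_fex.1 h2 q2 le_rfl
  obtain ⟨q4, hq4, m, h4⟩ := mem_fex.1 h3 q3 le_rfl
  obtain ⟨j, q5, hq5, h5⟩ := hg y q4 (hq4.trans (hq3.trans hq2))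
  obtain ⟨n, hn1, hn2⟩ := ((hh (y, j)).and_eventually (eventually_ge_atTop m)).exists
  have hle : q5 ≤ q1 := hq5.trans (hq4.trans (hq3.trans hq2))
  obtain ⟨q6, hq6, b, h6⟩ := mem_fex.1 ((hE1 y).1 n) q5 hle
  have h7 : b < g y j n := val_lt_of_bset (down_IsFun _ _ (hE1 y) _ (hq6.trans hle))
    (null_diff_trans hq6 h5) h6
  obtain ⟨_, _, h8⟩ := mem_fimp.1 (h4 n hn2 (h n) b) q6 (hq6.trans hq5)
    ⟨mem_meets_chk.2 rfl, h6⟩
  have h9 : h n ≤ b := h8
  have h10 : g y j n < h n := hn1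
  omega

theorem domIs (p : MAlg μ) : p ∈ DomIs (MAlg μ) dNum := by
  refine ⟨?_, fun ν hν => not_domLe _ (by rw [mk_out]; exact hν) p⟩
  obtain ⟨F, hF, hcard⟩ := exists_dominating
  have h1 : #dNum.out = #F := by rw [mk_out, hcard]
  obtain ⟨e⟩ := Cardinal.eq.1 h1
  refine domLe _ (fun y => (e y).1) (fun g => ?_) p
  obtain ⟨f, hf, h2⟩ := hF g
  refine ⟨e.symm ⟨f, hf⟩, ?_⟩
  simpa using h2

end

/-! ### The colouring -/

/-- The ground model part: partitions into intervals. -/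
theorem exists_partitions (K : Type) (hK : #K = dNum) : ∃ (D : K → ℕ → ℕ) (S : K → Set K)
    (idx : K → ℕ → ℕ), (∀ b, #(S b) < dNum) ∧ (∀ g : ℕ → ℕ, ∃ y, ∀ᶠ n in atTop, g n ≤ D y n) ∧
      ∀ b a, a ∉ S b → ∀ N, ∃ j, N ≤ j ∧ ∃ m, N ≤ m ∧ ∀ k, m ≤ k → k < D b m → idx a k = j := by
  obtain ⟨F, hF, hcard⟩ := exists_dominating
  have h1 : #K = #F := by rw [hK, hcard]
  obtain ⟨e⟩ := Cardinal.eq.1 h1
  have h2 : #K = #dNum.ord.ToType := by rw [hK, mk_toType, card_ord]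
  obtain ⟨o⟩ := Cardinal.eq.1 h2
  have hcard2 : ∀ b : K, #{a | ¬ o b < o a} < dNum := by
    intro b
    have h3 : #{a | ¬ o b < o a} ≤ #(Iic (o b)) := by
      refine mk_le_of_injective (f := fun a => (⟨o a.1, not_lt.1 a.2⟩ : Iic (o b))) ?_
      intro a a' h
      have h4 : o a.1 = o a'.1 := congrArg Subtype.val h
      exact Subtype.ext (o.injective h4)
    refine h3.trans_lt ?_
    have h4 : Iic (o b) = insert (o b) (Iio (o b)) := by
      ext x; simp [le_iff_lt_or_eq, or_comm]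
    rw [h4]
    refine (mk_insert_le).trans_lt ?_
    refine add_lt_of_lt aleph0_lt_dNum.le ?_ (one_lt_aleph0.trans aleph0_lt_dNum)
    exact mk_Iio_toType_ord_lt (o b)
  have h5 : ∀ a : K, ∃ E : ℕ → ℕ, StrictMono E ∧ E 0 = 0 ∧
      ∀ (i : {b // o b < o a}) N, ∃ n, N ≤ n ∧ ∃ m, E n ≤ m ∧ (e i.1).1 m ≤ E (n + 1) := by
    intro a
    refine partition_lemma ?_ fun i : {b // o b < o a} => (e i.1).1
    have h6 : #{b // o b < o a} ≤ #(Iio (o a)) := by
      refine mk_le_of_injective (f := fun b => (⟨o b.1, b.2⟩ : Iio (o a))) ?_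
      intro b b' h
      have h4 : o b.1 = o b'.1 := congrArg Subtype.val h
      exact Subtype.ext (o.injective h4)
    exact h6.trans_lt (mk_Iio_toType_ord_lt (o a))
  choose E hE1 hE2 hE3 using h5
  have h7 : ∀ a k, ∃ n, E a n ≤ k ∧ k < E a (n + 1) := fun a k => exists_block (hE1 a) (hE2 a) k
  choose idx hidx1 hidx2 using h7
  refine ⟨fun b => (e b).1, fun b => {a | ¬ o b < o a}, idx, hcard2, fun g => ?_, ?_⟩
  · obtain ⟨f, hf, h2⟩ := hF g
    refine ⟨e.symm ⟨f, hf⟩, ?_⟩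
    simpa using h2
  · intro b a hab N
    have hab' : o b < o a := by
      by_contra h
      exact hab h
    obtain ⟨n, hn, m, hm1, hm2⟩ := hE3 a ⟨b, hab'⟩ N
    have h8 : n ≤ E a n := (hE1 a).le_apply
    refine ⟨n, hn, m, hn.trans (h8.trans hm1), fun k hk1 hk2 => ?_⟩
    exact block_unique (hE1 a) (hidx1 a k) (hidx2 a k) (hm1.trans hk1) (hk2.trans_le hm2)

section

variable {L : Type}

theorem meas_eq {X : Type} (c : X) (v : Bool) : MeasurableSet {ω : X → Bool | ω c = v} := by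
  have h : Measurable fun ω : X → Bool => ω c := measurable_pi_apply c
  exact h (measurableSet_singleton v)

/-- the coordinates of an infinite set are not all constant on a set of positive measure -/
theorem null_of_infinite {X : Type} {r : Set (X → Bool)} (c : ℕ → X) (hc : Function.Injective c)
    {J : Set ℕ} (hJ : J.Infinite) {b : Bool}
    (h : ∀ j ∈ J, coins X (r \ {ω | ω (c j) = b}) = 0) : coins X r = 0 := by
  have h1 : ∀ m : ℕ, coins X r ≤ (2⁻¹ : ℝ≥0∞) ^ m := by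
    intro m
    obtain ⟨f, hf⟩ : ∃ f : ℕ → ℕ, Function.Injective f ∧ ∀ i, f i ∈ J :=
      ⟨fun i => (hJ.natEmbedding J i).1, fun i i' hii => (hJ.natEmbedding J).injective
        (Subtype.ext hii), fun i => (hJ.natEmbedding J i).2⟩
    have h2 : r ⊆ (⋃ i : Fin m, r \ {ω | ω (c (f i)) = b}) ∪
        {ω | ∀ i : Fin m, ω (c (f i)) = b} := by
      intro ω hω
      by_cases hall : ∀ i : Fin m, ω (c (f i)) = b
      · exact Or.inr hall
      · left
        push Not at hall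
        obtain ⟨i, hi⟩ := hall
        exact mem_iUnion.2 ⟨i, hω, hi⟩
    refine (measure_mono h2).trans ((measure_union_le _ _).trans ?_)
    rw [measure_iUnion_null fun i : Fin m => h _ (hf.2 i), zero_add]
    refine le_of_eq (coins_cyl (fun i : Fin m => c (f i)) ?_ fun _ => b)
    intro i i' hii
    exact Fin.ext (hf.1 (hc hii))
  have h3 : Tendsto (fun m : ℕ => (2⁻¹ : ℝ≥0∞) ^ m) atTop (nhds 0) :=
    ENNReal.tendsto_pow_atTop_nhds_zero_of_lt_one ENNReal.one_half_lt_one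
  exact le_antisymm (ge_of_tendsto' h3 h1) zero_le

theorem core {K : Type} (hK : #K = dNum) (D : K → ℕ → ℕ) (S : K → Set K) (idx : K → ℕ → ℕ)
    (hS : ∀ b, #(S b) < dNum) (hD : ∀ g : ℕ → ℕ, ∃ y, ∀ᶠ n in atTop, g n ≤ D y n)
    (hidx : ∀ b a, a ∉ S b → ∀ N, ∃ j, N ≤ j ∧ ∃ m, N ≤ m ∧
      ∀ k, m ≤ k → k < D b m → idx a k = j) (l : L) (v : Bool)
    {r : MAlg (coins (L × ℕ))} {A : K → Set (MAlg (coins (L × ℕ)))}
    {B : ℕ → Set (MAlg (coins (L × ℕ)))} (hA : r ∈ HasFullSize A) (hB : r ∈ HasFullSize B)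
    (h : ∀ a k, ∀ q ≤ r, q ∈ meets (A a) → q ∈ meets (B k) →
      coins (L × ℕ) (q.s \ {ω | ω (l, idx a k) = v}) = 0) : False := by
  classical
  have hBm : ∀ m, coins (L × ℕ) (r.s \ ⋃ k, (if m ≤ k then val (B k) else ∅)) = 0 := by
    intro m
    refine null_of_dense (MeasurableSet.iUnion fun k => ?_) fun q hq => ?_
    · split_ifs
      · exact val_meas _
      · exact MeasurableSet.empty
    · obtain ⟨q', hq', n, hn, hn'⟩ := exists_mem_ge (down_HasFullSize B _ hB _ hq) m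
      refine ⟨q', hq', null_diff_trans (mem_meets'.1 hn') (null_diff_of_subset ?_)⟩
      intro x hx
      refine mem_iUnion.2 ⟨n, ?_⟩
      rw [if_pos hn]
      exact hx
  have hmeas : ∀ m k : ℕ, MeasurableSet (if m ≤ k then val (B k) else (∅ : Set (L × ℕ → Bool))) := by
    intro m k
    split_ifs
    · exact val_meas _
    · exact MeasurableSet.empty
  obtain ⟨g, hg⟩ := exists_bound r.meas (fun m k => if m ≤ k then val (B k) else ∅) hmeas hBm r.pos
  have hGm : MeasurableSet (⋂ m, ⋃ k ∈ Finset.range (g m),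
      (if m ≤ k then val (B k) else (∅ : Set (L × ℕ → Bool)))) :=
    MeasurableSet.iInter fun m => Finset.measurableSet_biUnion _ fun k _ => hmeas m k
  set G : Set (L × ℕ → Bool) := ⋂ m, ⋃ k ∈ Finset.range (g m),
    (if m ≤ k then val (B k) else (∅ : Set (L × ℕ → Bool))) with hGdef
  have hpos : coins (L × ℕ) (r.s ∩ G) ≠ 0 := by
    intro h0
    have h1 : coins (L × ℕ) r.s ≤ coins (L × ℕ) (r.s \ G) := by
      have h2 : r.s ⊆ (r.s ∩ G) ∪ (r.s \ G) := by rw [inter_union_sdiff]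
      refine (measure_mono h2).trans ((measure_union_le _ _).trans ?_)
      rw [h0, zero_add]
    exact absurd h1 (not_le.2 hg)
  obtain ⟨b, hb⟩ := hD g
  obtain ⟨m0, hm0⟩ := eventually_atTop.1 hb
  have hle1 : r.inter G hGm hpos ≤ r := r.inter_le _ _ _
  obtain ⟨r', hr', a, ha, hra⟩ := exists_mem_notMem Pool.Agent.R582.Rand.ccc
    (by rw [hK]; exact aleph0_lt_dNum) (S := S b) (by rw [hK]; exact hS b)
    (down_HasFullSize A _ hA _ hle1)
  have hr'G : coins (L × ℕ) (r'.s \ G) = 0 :=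
    null_diff_trans hr' (null_diff_of_subset inter_subset_right)
  have hr'r : r' ≤ r := hr'.trans hle1
  let J : Set ℕ := {j | ∃ m, m0 ≤ m ∧ ∀ k, m ≤ k → k < D b m → idx a k = j}
  have hJ : J.Infinite := by
    refine infinite_of_not_bddAbove ?_
    rintro ⟨N, hN⟩
    obtain ⟨j, hj, m, hm, hk⟩ := hidx b a ha (max m0 (N + 1))
    have h1 := hN (show j ∈ J from ⟨m, (le_max_left _ _).trans hm, hk⟩)
    have h2 : N + 1 ≤ j := (le_max_right _ _).trans hj
    omega
  refine r'.pos (null_of_infinite (fun j => (l, j)) (fun j j' hjj => (Prod.mk.inj hjj).2) hJ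
    (b := v) ?_)
  rintro j ⟨m, hm, hk⟩
  by_contra hne
  let s : MAlg (coins (L × ℕ)) := ⟨r'.s \ {ω | ω (l, j) = v}, r'.meas.diff
    (meas_eq (l, j) v), hne⟩
  have hs : s ≤ r' := null_diff_of_subset diff_subset
  have h1 : coins (L × ℕ) (s.s \ ⋃ k ∈ Finset.range (g m),
      (if m ≤ k then val (B k) else (∅ : Set (L × ℕ → Bool)))) = 0 :=
    null_diff_trans hs (null_diff_trans hr'G (null_diff_of_subset (iInter_subset _ m)))
  obtain ⟨k, hk1, t, ht, htk⟩ := exists_cond_of_cover (fun k => hmeas m k) h1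
  by_cases hmk : m ≤ k
  · rw [if_pos hmk] at htk
    have h2 : k < D b m := (Finset.mem_range.1 hk1).trans_le (hm0 m hm)
    have h3 := h a k t (ht.trans (hs.trans hr'r)) (down_meets _ _ hra _ (ht.trans hs))
      (mem_meets'.2 htk)
    rw [hk k hmk h2] at h3
    have h4 : coins (L × ℕ) (t.s \ (r'.s \ {ω | ω (l, j) = v})) = 0 := ht
    refine t.false_of_disj h3 h4 ?_
    have h5 : {ω : L × ℕ → Bool | ω (l, j) = v} ∩ (r'.s \ {ω | ω (l, j) = v}) = ∅ := by
      ext x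
      simp only [mem_inter_iff, Set.mem_sdiff, mem_empty_iff_false, iff_false, not_and, not_not]
      intro hx _
      exact hx
    rw [h5, measure_empty]
  · rw [if_neg hmk, sdiff_empty] at htk
    exact t.pos htk

theorem not_polarized [Nonempty L] (K : Type) (hK : #K = dNum) (p : MAlg (coins (L × ℕ))) :
    p ∈ fnot (Polarized (MAlg (coins (L × ℕ))) K ℕ) := by
  obtain ⟨D, S, idx, hS, hD, hidx⟩ := exists_partitions K hK
  obtain ⟨l⟩ := (inferInstance : Nonempty L)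
  intro q _ hq
  have hEm : ∀ (j : ℕ) (v : Bool), MeasurableSet {ω : L × ℕ → Bool | ω (l, j) = v} := fun j v =>
    meas_eq (l, j) v
  obtain ⟨q1, hq1, A, h1⟩ := mem_fex.1 (hq fun a k => cst {ω | ω (l, idx a k) = true}) q le_rfl
  obtain ⟨q2, hq2, B, hA, hB, h2⟩ := mem_fex.1 h1 q1 le_rfl
  obtain ⟨q3, hq3, h3 | h3⟩ := mem_for.1 h2 q2 le_rfl
  · refine core hK D S idx hS hD hidx l true (down_HasFullSize A _ hA _ hq3)
      (down_HasFullSize B _ hB _ hq3) fun a k r hr ha hb => ?_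
    rw [← mem_meets_cst' (hEm _ _)]
    exact meets_of_dense fun s hs => mem_fimp.1 (h3 a k) s (hs.trans hr)
      ⟨down_meets _ _ ha _ hs, down_meets _ _ hb _ hs⟩
  · refine core hK D S idx hS hD hidx l false (down_HasFullSize A _ hA _ hq3)
      (down_HasFullSize B _ hB _ hq3) fun a k r hr ha hb => ?_
    refine null_of_dense (hEm _ _) fun s hs => ?_
    obtain ⟨t, ht, ht'⟩ := mem_fimp.1 (h3 a k) s (hs.trans hr)
      ⟨down_meets _ _ ha _ hs, down_meets _ _ hb _ hs⟩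
    refine ⟨t, ht, ?_⟩
    by_contra hne
    have h4 : coins (L × ℕ) (t.s ∩ {ω | ω (l, idx a k) = true}) ≠ 0 := by
      intro h0
      apply hne
      refine measure_mono_null ?_ h0
      rintro x ⟨hx, hx'⟩
      refine ⟨hx, ?_⟩
      simp only [mem_setOf_eq, Bool.not_eq_false] at hx' ⊢
      exact hx'
    refine ht' (t.inter _ (hEm _ _) h4) (t.inter_le _ _ _) ?_
    exact (mem_meets_cst' (hEm _ _)).2 (null_diff_of_subset inter_subset_right)

end

end Pool.Agent.U69.RR
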